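import Pool.Agent.helper75.S6D.Spec

set_option autoImplicit false

/-!
Row s6:SUU (MP_2b41e9_nt): a sum of squares.
-/

open Polynomial Finset Pool.Agent.PSA

noncomputable section

namespace Pool.Agent.S6D

/-- **SUU** -/
theorem SUU : SUU_stmt := by
  intro K
  refine ⟨32 / 3 + |K|, fun M => ?_⟩
  induction M with
  | zero => simp
  | succ M ih =>
    rw [Finset.sum_Icc_succ_top (by omega)]
    push_cast
    have h1 : K * ((M : ℝ) + 1) ≤ |K| * ((M : ℝ) + 1) :=
      mul_le_mul_of_nonneg_right (le_abs_self K) (by positivity)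
    have h2 : 0 ≤ |K| * (M : ℝ) := by positivity
    have h3 : (0 : ℝ) ≤ (M : ℝ) := Nat.cast_nonneg M
    nlinarith

end Pool.Agent.S6D
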